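import Pool.Agent.Helpers.H4_MulTable

/-! For every `f → ∞` some two-class partition of the positive integers has its monochromatic
products with factors larger than `f` of lower density zero. -/

namespace Pool.Agent.Results.MP_c34da8_nt.TwoClass

open Filter

/-- `D_f` for the partition into the classes `A` and `B`: the integers `n = a * a'` with
`a, a'` in a common class and `min a a' > f n`. -/
def monoProducts (f : ℕ → ℝ) (A B : Set ℕ) : Set ℕ :=
  {n | ∃ a a' : ℕ, ((a ∈ A ∧ a' ∈ A) ∨ (a ∈ B ∧ a' ∈ B)) ∧ n = a * a' ∧
    f n < min (a : ℝ) (a' : ℝ)}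

open Classical in
/-- The lower asymptotic density of a set of natural numbers. -/
noncomputable def lowerDensity (D : Set ℕ) : ℝ :=
  liminf (fun M : ℕ => (((Finset.Icc 1 M).filter (fun n => n ∈ D)).card : ℝ) / M) atTop

/-- For every `f → ∞` there is a partition of the positive integers into two classes for which
`D_f` has lower asymptotic density zero. -/
theorem result (f : ℕ → ℝ) (hf : Tendsto f atTop atTop) :
    ∃ A B : Set ℕ, Disjoint A B ∧ A ∪ B = {n : ℕ | 0 < n} ∧ A.Nonempty ∧ B.Nonempty ∧
      lowerDensity (monoProducts f A B) = 0 :=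
  Pool.Agent.Helpers.H4MulTable.main f hf

end Pool.Agent.Results.MP_c34da8_nt.TwoClass
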